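import Mathlib
import Pool.Prelude.Def_F_c31e40fa
import Pool.Agent.V1186.CN.Lf3
import Pool.Agent.Y298.GA.JulRat
import Pool.Agent.Y298.GA.RFix
import Pool.Agent.Y298.CA.Typ
import Pool.Agent.Y657.GA.RBAS
import Pool.Agent.Results.MP_70a088_an.QueerArea

/-!
# Invariant line fields near typical unicritical polynomials live on deeply recurrent orbits

Let `c₀` be a parameter of the Multibrot set `M_d` whose critical value has a Lyapunov exponent
`χ > 0`; this is so at the landing point of almost every parameter ray, with `χ = log d`. Let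
`0 < ε < 1`, let `r` be small, and put `T = r ^ ((1 - ε) / (d - 1))`. We prove:

* for every holomorphic map `g` on the disc `|z| < 4` which is uniformly `r`-close to `z ^ d + c₀`
  there, almost every point whose orbit stays in the disc `|z| ≤ 3` has an orbit which enters the disc
  `|z| < T` infinitely often;
* for every rational map `P / Q` of degree `d` whose coefficients are `r`-close to those of
  `(z ^ d + c₀) / 1`, the same is true of almost every point of the Julia set, hence of almost every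
  point of the support of an invariant line field on the Julia set;
* if `|c - c₀| ≤ r`, `c ∈ M_d`, and the filled Julia set of `z ^ d + c` has positive area (so if there is
  an invariant line field on its Julia set, or if `c` is in the interior of `M_d`), then the critical
  orbit itself enters the disc `|z| < T` infinitely often.

Method: the orbits which avoid the disc are uniformly expanded (`Pool.Agent.V1186.CN.recur`), hence
form compact expanding sets, which are porous. If the critical orbit enters the disc only finitely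
often then the Collet-Eckmann condition holds, and the filled Julia set has zero area.
-/

set_option autoImplicit false

open MeasureTheory Filter Metric Topology Polynomial

namespace Pool.Agent.Results.MP_70a088_an.RecurrentSupport

open Pool.Agent.H713R2 (IsExteriorMap)

/-- The rational function `P / Q` of the plane. -/
noncomputable def map (P Q : ℂ[X]) : ℂ → ℂ := fun z => P.eval z / Q.eval z

/-- `f` is the rational map `P / Q` of the Riemann sphere, in lowest terms. -/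
def IsRationalMap (P Q : ℂ[X]) (f : OnePoint ℂ → OnePoint ℂ) : Prop :=
  IsCoprime P Q ∧ Q ≠ 0 ∧ Continuous f ∧
    ∀ z : ℂ, Q.eval z ≠ 0 → f (OnePoint.some z) = OnePoint.some (P.eval z / Q.eval z)

/-- The Fatou set: the points with a neighbourhood on which the iterates are equicontinuous (the
neighbourhoods `W` of the diagonal are the entourages of the uniform structure of the sphere). -/
def fatou (f : OnePoint ℂ → OnePoint ℂ) : Set (OnePoint ℂ) :=
  {x | ∃ U ∈ 𝓝 x, ∀ y ∈ U, ∀ W ∈ 𝓝ˢ (Set.diagonal (OnePoint ℂ)),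
    ∀ᶠ z in 𝓝 y, ∀ n : ℕ, (f^[n] y, f^[n] z) ∈ W}

/-- The finite points of the Julia set. -/
def julia (f : OnePoint ℂ → OnePoint ℂ) : Set ℂ := {z : ℂ | OnePoint.some z ∉ fatou f}

/-- `μ` is an invariant line field of `P / Q` supported on the Julia set; it is of absolute value
one on the set `S` of positive measure, and vanishes off `S`. -/
structure LineField (P Q : ℂ[X]) (f : OnePoint ℂ → OnePoint ℂ) (μ : ℂ → ℂ) (S : Set ℂ) : Prop where
  meas : Measurable μ
  one : ∀ z ∈ S, ‖μ z‖ = 1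
  off : ∀ z, z ∉ S → μ z = 0
  pos : 0 < volume S
  sub : S ⊆ julia f
  inv : ∀ᵐ z : ℂ,
    μ (map P Q z) * (starRingEnd ℂ (deriv (map P Q) z) / deriv (map P Q) z) = μ z

/-- `P` and `Q` have degree at most `d`, and the coefficients of `P / Q` are at distance at most `r`
from those of `(z ^ d + c₀) / 1`. -/
def Near (d : ℕ) (c₀ : ℂ) (r : ℝ) (P Q : ℂ[X]) : Prop :=
  P.natDegree ≤ d ∧ Q.natDegree ≤ d ∧
    (∀ i, ‖P.coeff i - (X ^ d + C c₀ : ℂ[X]).coeff i‖ ≤ r) ∧
    ∀ i, ‖Q.coeff i - (1 : ℂ[X]).coeff i‖ ≤ r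

/-- The polynomial `z ^ d + c`. -/
def f (d : ℕ) (c : ℂ) : ℂ → ℂ := fun z => z ^ d + c

/-- The Multibrot set `M_d`. -/
def M (d : ℕ) : Set ℂ := N62a1eb23.multibrotSet d

/-- The filled Julia set of `z ^ d + c`. -/
def filledJulia (d : ℕ) (c : ℂ) : Set ℂ :=
  {z | ¬ Tendsto (fun n => (f d c)^[n] z) atTop (Bornology.cobounded ℂ)}

/-- The radius `r ^ ((1 - ε) / (d - 1))`. -/
noncomputable def rad (d : ℕ) (ε r : ℝ) : ℝ := r ^ ((1 - ε) / ((d : ℝ) - 1))

/-- The times at which the orbit of `z` is in the disc of radius `T` about `0`. -/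
def visits (g : ℂ → ℂ) (T : ℝ) (z : ℂ) : Set ℕ := {n : ℕ | ‖g^[n] z‖ < T}

/-- `c₀` lies in the Multibrot set and the critical value `c₀` has the Lyapunov exponent `χ > 0`. -/
def Lyapunov (d : ℕ) (χ : ℝ) (c₀ : ℂ) : Prop :=
  0 < χ ∧ c₀ ∈ M d ∧
    Tendsto (fun n : ℕ => Real.log ‖deriv ((f d c₀)^[n]) c₀‖ / n) atTop (𝓝 χ)

/-- The statements (A), (B), (C) about the maps at distance at most `r` from `z ^ d + c₀`. -/
def Recurrent (d : ℕ) (c₀ : ℂ) (ε r : ℝ) : Prop :=
  -- (A) all holomorphic maps close to `z ^ d + c₀` on the disc of radius `4`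
  (∀ g : ℂ → ℂ, DifferentiableOn ℂ g (ball 0 4) →
    (∀ z ∈ ball (0 : ℂ) 4, ‖g z - (z ^ d + c₀)‖ ≤ r) →
    ∀ᵐ z : ℂ, (∀ n : ℕ, ‖g^[n] z‖ ≤ 3) → (visits g (rad d ε r) z).Infinite) ∧
  -- (B) all rational maps close to `z ^ d + c₀`
  (∀ P Q : ℂ[X], Near d c₀ r P Q → max P.natDegree Q.natDegree = d ∧ (∃ g, IsRationalMap P Q g) ∧
    ∀ g : OnePoint ℂ → OnePoint ℂ, IsRationalMap P Q g →
      (∀ᵐ z : ℂ, z ∈ julia g → (visits (map P Q) (rad d ε r) z).Infinite) ∧
      ∀ (μ : ℂ → ℂ) (S : Set ℂ), LineField P Q g μ S →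
        ∀ᵐ z : ℂ, z ∈ S → (visits (map P Q) (rad d ε r) z).Infinite) ∧
  -- (C) the critical orbit in the unicritical family
  ∀ c ∈ M d, ‖c - c₀‖ ≤ r →
    (volume (filledJulia d c) ≠ 0 → (visits (f d c) (rad d ε r) 0).Infinite) ∧
    (c ∈ interior (M d) → (visits (f d c) (rad d ε r) 0).Infinite) ∧
    ∀ g : OnePoint ℂ → OnePoint ℂ, IsRationalMap (X ^ d + C c) 1 g →
      ∀ (μ : ℂ → ℂ) (S : Set ℂ), LineField (X ^ d + C c) 1 g μ S →
        (visits (f d c) (rad d ε r) 0).Infinite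

theorem rad_pow {d : ℕ} (hd : 2 ≤ d) {ε r x : ℝ} (hr : 0 < r) (h : rad d ε r ≤ x) :
    r ^ (1 - ε) ≤ x ^ (d - 1) := by
  have hdR : (2 : ℝ) ≤ d := by exact_mod_cast hd
  have hd1 : 0 < (d : ℝ) - 1 := by linarith
  have h1 : rad d ε r ^ (d - 1) = r ^ (1 - ε) := by
    unfold rad
    rw [← Real.rpow_natCast, ← Real.rpow_mul hr.le, Nat.cast_sub (by omega), Nat.cast_one]
    congr 1
    field_simp
  rw [← h1]
  exact pow_le_pow_left₀ (Real.rpow_nonneg hr.le _) h _

theorem main {d : ℕ} (hd : 2 ≤ d) {χ : ℝ} {c₀ : ℂ} (h : Lyapunov d χ c₀) {ε : ℝ} (hε : 0 < ε)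
    (hε1 : ε < 1) : ∃ r₀ : ℝ, 0 < r₀ ∧ ∀ r : ℝ, 0 < r → r ≤ r₀ → Recurrent d c₀ ε r := by
  have hL : Pool.Agent.Y298.CA.Lyap d χ c₀ := h
  have hc2 : ‖c₀‖ ≤ 2 := Pool.Agent.TH279.MD.norm_le_two hd h.2.1
  have hb := Pool.Agent.Y657.GA.rbas
  obtain ⟨δ₁, hδ₁, hδ₁', H1⟩ := Pool.Agent.Y298.GA.rfix hb d hd
  obtain ⟨K, δ₃, hK, hδ₃, -, H3⟩ := hb d hd
  obtain ⟨ν, r₀, a, hν, hr₀, ha, H⟩ := Pool.Agent.V1186.CN.recurK hd hL hK hε hε1
  refine ⟨min r₀ (min δ₁ δ₃), lt_min hr₀ (lt_min hδ₁ hδ₃), ?_⟩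
  intro r hr hrr
  have e0 : r ≤ r₀ := hrr.trans (min_le_left _ _)
  have e2 : r ≤ δ₁ := hrr.trans ((min_le_right _ _).trans (min_le_left _ _))
  have e4 : r ≤ δ₃ := hrr.trans ((min_le_right _ _).trans (min_le_right _ _))
  have hr1 : r ≤ 1 := e2.trans hδ₁'
  have hKr : r ≤ K * r := by nlinarith
  have har : 0 < a * r := by positivity
  have hTpos : 0 < rad d ε r := Real.rpow_pos_of_pos hr _
  -- expansion along the orbits which avoid the disc
  have Hexp : ∀ g : ℂ → ℂ, Pool.Agent.V1186.CN.Near d c₀ g (K * r) →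
      ∀ z, (∀ i, ‖g^[i] z‖ ≤ 3) → (∀ i, rad d ε r ≤ ‖g^[i] z‖) → ∀ n : ℕ,
        a * r * Real.exp (ν * n) ≤ ‖Pool.Agent.V1186.CN.mu g z n‖ := fun g hg z hz hT n =>
    H g r hr e0 hg z hz n fun i _ => rad_pow hd hr (hT i)
  have key : ∀ g : ℂ → ℂ, Pool.Agent.V1186.CN.Near d c₀ g (K * r) →
      ∀ᵐ z : ℂ, (∀ n : ℕ, ‖g^[n] z‖ ≤ 3) → (visits g (rad d ε r) z).Infinite := by
    intro g hg
    have h1 := Pool.Agent.V1186.CN.visits_null hg har hν (Hexp g hg)
    rw [ae_iff]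
    refine measure_mono_null ?_ h1
    intro z hz
    simp only [Set.mem_ofPred_eq, Classical.not_imp, Set.not_infinite] at hz
    exact hz
  have hsubJ : ∀ (P Q : ℂ[X]) (g : OnePoint ℂ → OnePoint ℂ), Near d c₀ r P Q →
      IsRationalMap P Q g → ∀ z ∈ julia g, ∀ n : ℕ, ‖(map P Q)^[n] z‖ ≤ 5 / 2 := by
    intro P Q g hPQ hg z hz
    have hN : Pool.Agent.Y298.GA.Nr d c₀ r P Q := ⟨hPQ.1, hPQ.2.1, hPQ.2.2.1, hPQ.2.2.2⟩
    have hg' : Pool.Agent.Helper114.Herman.IsRat g P Q := ⟨hg.2.2.1, hg.1, hg.2.1, hg.2.2.2⟩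
    obtain ⟨p, -, -, H2⟩ := H1 c₀ r P Q g hc2 hr.le e2 hN hg'
    exact H2 z (Or.inl hz)
  have hcrit : ∀ c ∈ M d, ‖c - c₀‖ ≤ r → volume (filledJulia d c) ≠ 0 →
      (visits (f d c) (rad d ε r) 0).Infinite := by
    intro c hc hcr hv
    by_contra hfin
    rw [Set.not_infinite] at hfin
    have hnear : Pool.Agent.V1186.CN.Near d c₀ (f d c) (K * r) := by
      refine ⟨?_, fun w _ => ?_⟩
      · unfold f
        fun_prop
      · show ‖w ^ d + c - (w ^ d + c₀)‖ ≤ K * r
        rw [add_sub_add_left_eq_sub]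
        exact hcr.trans hKr
    obtain ⟨C₁, lam, hce⟩ := Pool.Agent.V1186.CN.crit_cep hd hc hTpos har hν
      (Hexp _ hnear) hfin
    apply hv
    refine measure_mono_null ?_ hce.vol_esc
    intro z hz hesc
    apply hz
    rw [← tendsto_norm_atTop_iff_cobounded, Filter.tendsto_atTop]
    intro B
    obtain ⟨N, hN⟩ := Pool.Agent.Y298.SH.CD.Esc.far hd hce.c_le hesc B
    filter_upwards [eventually_ge_atTop N] with n hn
    exact (hN n hn).le
  refine ⟨?_, ?_, ?_⟩
  · intro g hg hgr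
    exact key g ⟨hg, fun z hz => (hgr z hz).trans hKr⟩
  · intro P Q hPQ
    have hN : Pool.Agent.Y298.GA.Nr d c₀ r P Q := ⟨hPQ.1, hPQ.2.1, hPQ.2.2.1, hPQ.2.2.2⟩
    obtain ⟨hQ9, hPQ9, -, hcop, hQ0, hmax, -⟩ := H3 c₀ r P Q hc2 hr.le e4 hN
    obtain ⟨g, hg, -⟩ := Pool.Agent.Helper114.Konig.exists_isRat hcop hQ0
    refine ⟨hmax, ⟨g, hg.cop, hg.ne, hg.cont, hg.eval⟩, ?_⟩
    intro g' hg'
    have h49 : ball (0 : ℂ) 4 ⊆ ball 0 9 := ball_subset_ball (by norm_num)
    have hQne : ∀ z ∈ ball (0 : ℂ) 4, Q.eval z ≠ 0 := by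
      intro z hz h0
      have h3 := hQ9 z (h49 hz)
      rw [h0, norm_zero] at h3
      norm_num at h3
    have hnear : Pool.Agent.V1186.CN.Near d c₀ (map P Q) (K * r) := by
      refine ⟨?_, fun z hz => hPQ9 z (h49 hz)⟩
      exact P.differentiable.differentiableOn.div Q.differentiable.differentiableOn hQne
    have hJ : ∀ᵐ z : ℂ, z ∈ julia g' → (visits (map P Q) (rad d ε r) z).Infinite := by
      filter_upwards [key _ hnear] with z hz hzJ
      exact hz fun n => (hsubJ P Q g' hPQ hg' z hzJ n).trans (by norm_num)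
    refine ⟨hJ, ?_⟩
    intro μ S hS
    filter_upwards [hJ] with z hz hzS
    exact hz (hS.sub hzS)
  · intro c hc hcr
    refine ⟨hcrit c hc hcr, ?_, ?_⟩
    · intro hint
      refine hcrit c hc hcr ?_
      obtain ⟨s, hs, hsub⟩ := Metric.mem_nhds_iff.1 (mem_interior_iff_mem_nhds.1 hint)
      obtain ⟨κ, hκ, HQ⟩ := Pool.Agent.Results.MP_70a088_an.QueerArea.result
      have h1 := HQ d hd c s hs (fun x hx => hsub hx) 1 le_rfl
      intro h0
      have h2 : volume {z : ℂ | ¬ Tendsto (fun k => (fun z : ℂ => z ^ d + c)^[k] z) atTop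
          (Bornology.cobounded ℂ)} = 0 := h0
      rw [h2, ENNReal.toReal_zero] at h1
      have h3 : (fun c : ℂ => (fun z : ℂ => z ^ d + c)^[1] 0) = fun c => c := by
        funext c
        simp [zero_pow (show d ≠ 0 by omega)]
      rw [h3, deriv_id'', norm_one, mul_one] at h1
      have h4 : 0 < κ * s ^ 2 := by positivity
      linarith
    · intro g hg μ S hS
      refine hcrit c hc hcr ?_
      have hnearP : Near d c₀ r (X ^ d + C c) 1 := by
        refine ⟨?_, ?_, ?_, ?_⟩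
        · rw [natDegree_X_pow_add_C]
        · rw [natDegree_one]; omega
        · intro i
          rw [coeff_add, coeff_add, add_sub_add_left_eq_sub, coeff_C, coeff_C]
          split_ifs
          · exact hcr
          · rw [sub_zero, norm_zero]
            exact hr.le
        · intro i
          rw [sub_self, norm_zero]
          exact hr.le
      have hmap : map (X ^ d + C c) 1 = f d c := by
        funext z
        simp [map, f]
      have hsub : S ⊆ filledJulia d c := by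
        intro z hz ht
        have h1 := hsubJ _ _ g hnearP hg z (hS.sub hz)
        rw [hmap] at h1
        have h2 := (tendsto_norm_atTop_iff_cobounded.2 ht).eventually_gt_atTop (5 / 2)
        obtain ⟨n, hn⟩ := h2.exists
        exact absurd (h1 n) (not_le.2 hn)
      intro h0
      exact absurd (measure_mono_null hsub h0) hS.pos.ne'

/-- **Deep recurrence of the supports of invariant line fields.** -/
theorem result (d : ℕ) (hd : 2 ≤ d) :
    (∀ (χ : ℝ) (c₀ : ℂ), Lyapunov d χ c₀ → ∀ ε : ℝ, 0 < ε → ε < 1 →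
      ∃ r₀ : ℝ, 0 < r₀ ∧ ∀ r : ℝ, 0 < r → r ≤ r₀ → Recurrent d c₀ ε r) ∧
    (∃ ψ : ℂ → ℂ, IsExteriorMap (M d) ψ) ∧
    ∀ ψ : ℂ → ℂ, IsExteriorMap (M d) ψ →
      ∀ᵐ θ : ℝ, ∃ c₀ ∈ frontier (M d),
        Tendsto (fun r : ℝ => ψ (r * Complex.exp (θ * Complex.I))) (𝓝[>] 1) (𝓝 c₀) ∧
        ∀ ε : ℝ, 0 < ε → ε < 1 →
          ∃ r₀ : ℝ, 0 < r₀ ∧ ∀ r : ℝ, 0 < r → r ≤ r₀ → Recurrent d c₀ ε r := by
  refine ⟨fun χ c₀ h ε hε hε1 => main hd h hε hε1, ?_⟩
  obtain ⟨β, hβ⟩ := Pool.Agent.H713R2.exists_beta (d := d) hd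
  refine ⟨⟨_, Pool.Agent.H713R2.exteriorMap_of_beta hβ⟩, ?_⟩
  intro ψ hψ
  filter_upwards [Pool.Agent.Y272.TY.ae_neg' (Pool.Agent.Y272.TY.typical_all hd hβ)] with θ hθ
  obtain ⟨c₀, A, R, h⟩ := hθ
  obtain ⟨h1, h2, h3⟩ := Pool.Agent.Y298.CA.lyap_of_typ hd hβ h
  exact ⟨c₀, h.frontier hd hβ, h.tendsto_psi hβ hψ, fun ε hε hε1 => main hd ⟨h1, h2, h3⟩ hε hε1⟩

end Pool.Agent.Results.MP_70a088_an.RecurrentSupport
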